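import Pool.Agent.H34.FS.Targets
import Pool.Agent.H20.RQ.AQ1

/-!
# Pairs of quadrics with a fixed section (`MP_63b6b1_nt`), row AL2: the pairs of values modulo `M`
-/

set_option autoImplicit false

open Finset Pool.Agent.H32.RQ Pool.Agent.H34.FQ

namespace Pool.Agent.H75.HFS

open Pool.Agent.H34.FS Pool.Agent.H20.RQ

/-- **AL2.** -/
theorem pf_AL2 : T_AL2 := by
  classical
  intro r M _ u u' t t'
  have h1 : ∀ (l : Fin (r + 1) → ZMod M) (a b : ZMod M),
      ZMod.stdAddChar (a * (t + ∑ j, l j * cv 1 u j)) *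
        ZMod.stdAddChar (b * (t' + ∑ j, l j * cv 1 u' j)) =
        ZMod.stdAddChar (a * t + b * t') *
        ∏ j, ZMod.stdAddChar (l j * (a * cv 1 u j + b * cv 1 u' j)) := by
    intro l a b
    rw [← AddChar.map_add_eq_mul, ← char_map_sum, ← AddChar.map_add_eq_mul]
    congr 1
    rw [mul_add, mul_add, Finset.mul_sum, Finset.mul_sum]
    have h2 : ∑ j, l j * (a * cv 1 u j + b * cv 1 u' j) =
        ∑ j, a * (l j * cv 1 u j) + ∑ j, b * (l j * cv 1 u' j) := by
      rw [← Finset.sum_add_distrib]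
      exact Finset.sum_congr rfl fun j _ => by ring
    rw [h2]
    ring
  have h2 : ∀ a b : ZMod M, ∑ l : Fin (r + 1) → ZMod M,
      ∏ j, ZMod.stdAddChar (l j * (a * cv 1 u j + b * cv 1 u' j)) =
        if ∀ j : Fin (r + 1), a * cv 1 u j + b * cv 1 u' j = 0 then (M : ℂ) ^ (r + 1) else 0 := by
    intro a b
    have h3 := Finset.prod_univ_sum (fun _ : Fin (r + 1) => (Finset.univ : Finset (ZMod M)))
      (fun j v => ZMod.stdAddChar (v * (a * cv 1 u j + b * cv 1 u' j)))
    rw [Fintype.piFinset_univ] at h3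
    rw [← h3]
    simp only [char_sum]
    rw [Finset.prod_ite_zero]
    simp
  have key : (((Finset.univ.filter fun l : Fin (r + 1) → ZMod M =>
      t + ∑ j, l j * cv 1 u j = 0 ∧ t' + ∑ j, l j * cv 1 u' j = 0).card * M ^ 2 : ℕ) : ℂ) =
      ∑ a : ZMod M, ∑ b : ZMod M, ZMod.stdAddChar (a * t + b * t') *
        (if ∀ j : Fin (r + 1), a * cv 1 u j + b * cv 1 u' j = 0 then (M : ℂ) ^ (r + 1) else 0) := by
    rw [Finset.card_filter]
    push_cast
    rw [Finset.sum_mul]
    calc ∑ l : Fin (r + 1) → ZMod M, (if t + ∑ j, l j * cv 1 u j = 0 ∧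
            t' + ∑ j, l j * cv 1 u' j = 0 then (1 : ℂ) else 0) * (M : ℂ) ^ 2
        = ∑ l : Fin (r + 1) → ZMod M, ∑ a : ZMod M, ∑ b : ZMod M,
            ZMod.stdAddChar (a * (t + ∑ j, l j * cv 1 u j)) *
              ZMod.stdAddChar (b * (t' + ∑ j, l j * cv 1 u' j)) := by
          refine Finset.sum_congr rfl fun l _ => ?_
          rw [← Finset.sum_mul_sum, char_sum, char_sum]
          by_cases hx : t + ∑ j, l j * cv 1 u j = 0
          · by_cases hy : t' + ∑ j, l j * cv 1 u' j = 0
            · simp [hx, hy, sq]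
            · simp [hx, hy]
          · simp [hx]
      _ = ∑ a : ZMod M, ∑ b : ZMod M, ∑ l : Fin (r + 1) → ZMod M,
            ZMod.stdAddChar (a * (t + ∑ j, l j * cv 1 u j)) *
              ZMod.stdAddChar (b * (t' + ∑ j, l j * cv 1 u' j)) := by
          rw [Finset.sum_comm]
          exact Finset.sum_congr rfl fun a _ => Finset.sum_comm
      _ = _ := by
          refine Finset.sum_congr rfl fun a _ => Finset.sum_congr rfl fun b _ => ?_
          simp only [h1]
          rw [← Finset.mul_sum, h2]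
  -- the terms which do not vanish
  have hz : ∀ a b : ZMod M, (∀ j : Fin (r + 1), a * cv 1 u j + b * cv 1 u' j = 0) ↔
      b = -a ∧ ∀ i, a * (u i - u' i) = 0 := by
    intro a b
    constructor
    · intro h
      have h0 := h 0
      simp only [cv, Fin.cons_zero, mul_one] at h0
      have hb : b = -a := by linear_combination h0
      refine ⟨hb, fun i => ?_⟩
      have hi := h i.succ
      simp only [cv, Fin.cons_succ] at hi
      rw [hb] at hi
      linear_combination hi
    · rintro ⟨rfl, h⟩ j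
      refine Fin.cases ?_ (fun i => ?_) j
      · simp only [cv, Fin.cons_zero]
        ring
      · simp only [cv, Fin.cons_succ]
        linear_combination h i
  have hnorm : ‖∑ a : ZMod M, ∑ b : ZMod M, ZMod.stdAddChar (a * t + b * t') *
      (if ∀ j : Fin (r + 1), a * cv 1 u j + b * cv 1 u' j = 0 then (M : ℂ) ^ (r + 1) else 0)‖ ≤
      (M : ℝ) ^ (r + 1) *
        ((Finset.univ.filter fun a : ZMod M => ∀ i, a * (u i - u' i) = 0).card : ℝ) := by
    rw [Finset.card_filter]
    push_cast
    rw [Finset.mul_sum]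
    refine (norm_sum_le _ _).trans (Finset.sum_le_sum fun a _ => ?_)
    refine (norm_sum_le _ _).trans ?_
    have h5 : ∀ b : ZMod M, ‖ZMod.stdAddChar (a * t + b * t') *
        (if ∀ j : Fin (r + 1), a * cv 1 u j + b * cv 1 u' j = 0 then (M : ℂ) ^ (r + 1) else 0)‖ =
        if b = -a then (M : ℝ) ^ (r + 1) * (if ∀ i, a * (u i - u' i) = 0 then 1 else 0)
          else 0 := by
      intro b
      rw [norm_mul, AddChar.norm_apply, one_mul]
      by_cases hb : b = -a
      · by_cases hi : ∀ i, a * (u i - u' i) = 0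
        · rw [if_pos ((hz a b).2 ⟨hb, hi⟩), if_pos hb, if_pos hi]
          simp
        · rw [if_neg (fun h => hi ((hz a b).1 h).2), if_pos hb, if_neg hi]
          simp
      · rw [if_neg (fun h => hb ((hz a b).1 h).1), if_neg hb]
        simp
    rw [Finset.sum_congr rfl fun b _ => h5 b, Finset.sum_ite_eq', if_pos (Finset.mem_univ _)]
  rw [← key] at hnorm
  rw [Complex.norm_natCast] at hnorm
  exact_mod_cast hnorm

end Pool.Agent.H75.HFS
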