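import Pool.Agent.H34.FS.Targets
import Pool.Agent.H6.RQ.SMM

/-!
# Pairs of quadrics with a fixed section (`MP_63b6b1_nt`), row SML: the sum over the pairs

The proof is the one of the row SMM of the board `hpq_modules` (`Pool.Agent.H6.RQ.SMM`), which also
works for `5 ≤ s`.
-/

set_option autoImplicit false

open Finset Pool.Agent.H32.RQ Pool.Agent.H34.FQ

namespace Pool.Agent.H75.HFS

open Pool.Agent.H34.FS Pool.Agent.H6.RQ

/-- **SML.** -/
theorem pf_SML : T_SML := by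
  classical
  intro s hs
  obtain ⟨m, rfl⟩ : ∃ m, s = m + 4 := ⟨s - 4, by omega⟩
  have hm : 1 ≤ m := by omega
  refine ⟨2 ^ (m + 5), by positivity, ?_⟩
  intro ι P G D M W w C₀ κ hC₀ hκ hw hW hP hcard
  have e1 : m + 4 - 3 = m + 1 := by omega
  have e2 : m + 4 - 4 = m := by omega
  have e3 : m + 4 - 1 = m + 3 := by omega
  rw [e1, e2]
  rw [e3] at hcard
  have hw' : (1 : ℝ) ≤ w := by exact_mod_cast hw
  rcases P.eq_empty_or_nonempty with rfl | ⟨i₀, hi₀⟩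
  · rw [sum_empty]
    positivity
  have hM : 1 ≤ M := by
    obtain ⟨h1, h2, h3⟩ := hP i₀ hi₀
    omega
  set K := Nat.clog 2 M with hK
  have hclog : ∀ D : ℕ, 1 ≤ D → D ≤ 2 ^ Nat.clog 2 D ∧ 2 ^ Nat.clog 2 D < 2 * D := by
    intro D hD
    refine ⟨Nat.le_pow_clog (by norm_num) D, ?_⟩
    rcases Nat.lt_or_ge 1 D with h | h
    · have h1 : 0 < Nat.clog 2 D := Nat.clog_pos (by norm_num) h
      have h2 := Nat.pow_pred_clog_lt_self (b := 2) (by norm_num) h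
      rw [Nat.pred_eq_sub_one] at h2
      calc 2 ^ Nat.clog 2 D = 2 * 2 ^ (Nat.clog 2 D - 1) := by
            rw [← pow_succ']
            congr 1
            omega
        _ < 2 * D := by omega
    · obtain rfl : D = 1 := by omega
      simp
  have h2K : ((2 : ℝ) ^ K) ≤ 2 * M := by
    have := (hclog M hM).2.le
    exact_mod_cast this
  -- the classes
  have hmaps : ∀ i ∈ P, (G i, Nat.clog 2 (D i)) ∈ Icc 1 M ×ˢ range (K + 1) := by
    intro i hi
    obtain ⟨h1, h2, h3⟩ := hP i hi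
    rw [mem_product, mem_Icc, mem_range]
    exact ⟨⟨h1, h2.trans h3⟩, Nat.lt_succ_of_le (Nat.clog_mono_right 2 h3)⟩
  rw [← sum_fiberwise_of_maps_to hmaps, sum_product]
  -- one class
  have hclass : ∀ g ∈ Icc 1 M, ∀ k ∈ range (K + 1),
      ∑ i ∈ P.filter (fun i => (G i, Nat.clog 2 (D i)) = (g, k)),
        (G i : ℝ) ^ 2 / (D i : ℝ) ^ 2 * (if G i ∣ W then κ / D i else 1) ≤
      (if g ∣ W then 8 * κ * C₀ * ((2 : ℝ) ^ k) ^ m * ((g : ℝ) ^ 2)⁻¹
        else 4 * C₀ * ((2 : ℝ) ^ k) ^ (m + 1) * ((g : ℝ) ^ 2)⁻¹) := by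
    intro g hg k _
    have hg1 : 1 ≤ g := (mem_Icc.1 hg).1
    have hg0 : (0 : ℝ) < g := by exact_mod_cast hg1
    have h2k : (0 : ℝ) < 2 ^ k := by positivity
    set B : ℝ := (g : ℝ) ^ 2 * (4 / ((2 : ℝ) ^ k) ^ 2) *
      (if g ∣ W then 2 * κ / (2 : ℝ) ^ k else 1) with hB
    have hB0 : 0 ≤ B := by
      rw [hB]
      split_ifs <;> positivity
    have h1 : ∀ i ∈ P.filter (fun i => (G i, Nat.clog 2 (D i)) = (g, k)),
        (G i : ℝ) ^ 2 / (D i : ℝ) ^ 2 * (if G i ∣ W then κ / D i else 1) ≤ B := by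
      intro i hi
      obtain ⟨hi1, hi2⟩ := mem_filter.1 hi
      rw [Prod.mk.injEq] at hi2
      obtain ⟨hi3, hi4⟩ := hi2
      obtain ⟨p1, p2, p3⟩ := hP i hi1
      have hD1 : 1 ≤ D i := p1.trans p2
      have hD0 : (0 : ℝ) < D i := by exact_mod_cast hD1
      have hD2 : (2 : ℝ) ^ k ≤ 2 * D i := by
        have := (hclog (D i) hD1).2.le
        rw [hi4] at this
        exact_mod_cast this
      have hq : (1 : ℝ) / D i ≤ 2 / 2 ^ k := by
        rw [div_le_div_iff₀ hD0 h2k]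
        linarith
      have hq2 : (1 : ℝ) / (D i : ℝ) ^ 2 ≤ 4 / ((2 : ℝ) ^ k) ^ 2 := by
        have := pow_le_pow_left₀ (by positivity) hq 2
        calc (1 : ℝ) / (D i : ℝ) ^ 2 = (1 / D i) ^ 2 := by ring
          _ ≤ (2 / 2 ^ k) ^ 2 := this
          _ = _ := by ring
      rw [hi3, hB]
      refine mul_le_mul ?_ ?_ (by split_ifs <;> positivity) (by positivity)
      · rw [div_eq_mul_one_div]
        exact mul_le_mul_of_nonneg_left hq2 (by positivity)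
      · split_ifs
        · calc κ / D i = κ * (1 / D i) := by ring
            _ ≤ κ * (2 / 2 ^ k) := mul_le_mul_of_nonneg_left hq hκ
            _ = 2 * κ / 2 ^ k := by ring
        · exact le_rfl
    refine (sum_le_card_nsmul _ _ _ h1).trans ?_
    rw [nsmul_eq_mul]
    have h2 : ((P.filter (fun i => (G i, Nat.clog 2 (D i)) = (g, k))).card : ℝ) ≤
        C₀ * ((2 : ℝ) ^ k / g) ^ (m + 3) := by
      have h3 := hcard g (2 ^ k) hg1
      push_cast at h3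
      refine le_trans ?_ h3
      have h4 : P.filter (fun i => (G i, Nat.clog 2 (D i)) = (g, k)) ⊆
          P.filter fun i => G i = g ∧ D i ≤ 2 ^ k := by
        intro i hi
        obtain ⟨hi1, hi2⟩ := mem_filter.1 hi
        rw [Prod.mk.injEq] at hi2
        obtain ⟨hi3, hi4⟩ := hi2
        refine mem_filter.2 ⟨hi1, hi3, ?_⟩
        have := (hclog (D i) ((hP i hi1).1.trans (hP i hi1).2.1)).1
        rwa [hi4] at this
      exact_mod_cast card_le_card h4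
    refine (mul_le_mul_of_nonneg_right h2 hB0).trans ?_
    have e4 : C₀ * ((2 : ℝ) ^ k / g) ^ (m + 3) * B = 4 * C₀ * ((2 : ℝ) ^ k) ^ (m + 1) *
        ((g : ℝ) ^ (m + 1))⁻¹ * (if g ∣ W then 2 * κ / (2 : ℝ) ^ k else 1) := by
      rw [hB, div_pow, pow_add ((2 : ℝ) ^ k) (m + 1) 2, pow_add (g : ℝ) (m + 1) 2]
      field_simp
    rw [e4]
    have h5 := pow_inv g (m + 1) hg1 (by omega)
    split_ifs
    · have e5 : 4 * C₀ * ((2 : ℝ) ^ k) ^ (m + 1) * ((g : ℝ) ^ (m + 1))⁻¹ *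
          (2 * κ / (2 : ℝ) ^ k) = 8 * κ * C₀ * ((2 : ℝ) ^ k) ^ m * ((g : ℝ) ^ (m + 1))⁻¹ := by
        rw [pow_succ ((2 : ℝ) ^ k) m]
        field_simp
        ring
      rw [e5]
      exact mul_le_mul_of_nonneg_left h5 (by positivity)
    · rw [mul_one]
      exact mul_le_mul_of_nonneg_left h5 (by positivity)
  refine (sum_le_sum fun g hg => sum_le_sum fun k hk => hclass g hg k hk).trans ?_
  -- sum over `k`
  have hk1 : ∑ k ∈ range (K + 1), ((2 : ℝ) ^ k) ^ m ≤ 2 * (2 * (M : ℝ)) ^ m :=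
    (geo m K (by omega)).trans (mul_le_mul_of_nonneg_left
      (pow_le_pow_left₀ (by positivity) h2K m) (by norm_num))
  have hk2 : ∑ k ∈ range (K + 1), ((2 : ℝ) ^ k) ^ (m + 1) ≤ 2 * (2 * (M : ℝ)) ^ (m + 1) :=
    (geo (m + 1) K (by omega)).trans (mul_le_mul_of_nonneg_left
      (pow_le_pow_left₀ (by positivity) h2K (m + 1)) (by norm_num))
  have hsum : ∀ g ∈ Icc 1 M, ∑ k ∈ range (K + 1),
      (if g ∣ W then 8 * κ * C₀ * ((2 : ℝ) ^ k) ^ m * ((g : ℝ) ^ 2)⁻¹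
        else 4 * C₀ * ((2 : ℝ) ^ k) ^ (m + 1) * ((g : ℝ) ^ 2)⁻¹) ≤
      16 * κ * C₀ * (2 * (M : ℝ)) ^ m * ((g : ℝ) ^ 2)⁻¹ +
        (if w < g then 8 * C₀ * (2 * (M : ℝ)) ^ (m + 1) * ((g : ℝ) ^ 2)⁻¹ else 0) := by
    intro g hg
    have hg1 : 1 ≤ g := (mem_Icc.1 hg).1
    by_cases h : g ∣ W
    · simp only [if_pos h]
      have e5 : ∑ k ∈ range (K + 1), 8 * κ * C₀ * ((2 : ℝ) ^ k) ^ m * ((g : ℝ) ^ 2)⁻¹ =
          8 * κ * C₀ * ((g : ℝ) ^ 2)⁻¹ * ∑ k ∈ range (K + 1), ((2 : ℝ) ^ k) ^ m := by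
        rw [mul_sum]
        exact sum_congr rfl fun k _ => by ring
      rw [e5]
      have h6 := mul_le_mul_of_nonneg_left hk1
        (show 0 ≤ 8 * κ * C₀ * ((g : ℝ) ^ 2)⁻¹ by positivity)
      have h7 : (0 : ℝ) ≤ (if w < g then 8 * C₀ * (2 * (M : ℝ)) ^ (m + 1) * ((g : ℝ) ^ 2)⁻¹
          else 0) := by
        split_ifs <;> positivity
      linarith
    · simp only [if_neg h]
      have hgw : w < g := by
        by_contra h'
        exact h (hW g hg1 (not_lt.1 h'))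
      rw [if_pos hgw]
      have e5 : ∑ k ∈ range (K + 1), 4 * C₀ * ((2 : ℝ) ^ k) ^ (m + 1) * ((g : ℝ) ^ 2)⁻¹ =
          4 * C₀ * ((g : ℝ) ^ 2)⁻¹ * ∑ k ∈ range (K + 1), ((2 : ℝ) ^ k) ^ (m + 1) := by
        rw [mul_sum]
        exact sum_congr rfl fun k _ => by ring
      rw [e5]
      have h6 := mul_le_mul_of_nonneg_left hk2
        (show 0 ≤ 4 * C₀ * ((g : ℝ) ^ 2)⁻¹ by positivity)
      have h7 : 0 ≤ 16 * κ * C₀ * (2 * (M : ℝ)) ^ m * ((g : ℝ) ^ 2)⁻¹ := by positivity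
      linarith
  refine (sum_le_sum hsum).trans ?_
  rw [sum_add_distrib, ← mul_sum, ← sum_filter]
  have h8 : (Icc 1 M).filter (fun g => w < g) = Ioc w M := by
    ext x
    simp only [mem_filter, mem_Icc, mem_Ioc]
    omega
  rw [h8, ← mul_sum]
  have h9 := mul_le_mul_of_nonneg_left (inv_sq' M)
    (show 0 ≤ 16 * κ * C₀ * (2 * (M : ℝ)) ^ m by positivity)
  have h10 := mul_le_mul_of_nonneg_left (inv_sq w M hw)
    (show 0 ≤ 8 * C₀ * (2 * (M : ℝ)) ^ (m + 1) by positivity)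
  refine (add_le_add h9 h10).trans ?_
  have e6 : 16 * κ * C₀ * (2 * (M : ℝ)) ^ m * 2 + 8 * C₀ * (2 * (M : ℝ)) ^ (m + 1) * (1 / w) =
      2 ^ (m + 5) * C₀ * ((M : ℝ) ^ (m + 1) / w / 2 + κ * (M : ℝ) ^ m) := by
    rw [mul_pow, mul_pow, pow_succ (2 : ℝ) m, show m + 5 = m + 5 from rfl, pow_add (2 : ℝ) m 5]
    ring
  rw [e6]
  refine mul_le_mul_of_nonneg_left ?_ (by positivity)
  have h11 : 0 ≤ (M : ℝ) ^ (m + 1) / w := by positivity
  linarith

end Pool.Agent.H75.HFS
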