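import Pool.Agent.H34.FS.Targets

/-!
# Pairs of quadrics with a fixed section (`MP_63b6b1_nt`), row ULB: a lower bound for the number of
local classes

The proof follows the row UCL of the board `hfq_modules` (`Pool.Agent.H82.HFQ.UCL`).
-/

set_option autoImplicit false

open Finset Pool.Agent.H32.RQ Pool.Agent.H34.FQ

namespace Pool.Agent.H75.HFS

open Pool.Agent.H34.FS

/-- a product over a larger set of primes -/
theorem prod_fac (R : ℕ) (hR : R ≠ 0) (P : Finset ℕ) (hP : ∀ p : ℕ, p.Prime → p ∣ R → p ∈ P) :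
    ∏ p ∈ P, p ^ R.factorization p = R := by
  have h1 := Nat.prod_factorization_pow_eq_self hR
  rw [Finsupp.prod_of_support_subset (s := P)] at h1
  · exact h1
  · intro p hp
    rw [Nat.support_factorization] at hp
    exact hP p (Nat.prime_of_mem_primeFactors hp) (Nat.dvd_of_mem_primeFactors hp)
  · intro p _
    exact pow_zero p

/-- the number of classes is a product -/
theorem ulb_prod {r : ℕ} (F : Fin 2 → Mon r → ℤ) (L : Fin 2 → Fin (r + 1) → ℤ) (hCRL : T_CRL)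
    (c W₁ : ℕ) (hW : 1 ≤ W₁) (S : Finset ℕ) (k : ℕ → ℕ) (hS : ∀ p ∈ S, p.Prime)
    (hWS : ∀ p ∈ S, ¬ p ∣ W₁) :
    (UL F c (W₁ * ∏ p ∈ S, p ^ k p) L).card =
      (UL F c W₁ L).card * ∏ p ∈ S, (UL F c (p ^ k p) L).card := by
  classical
  induction S using Finset.induction_on with
  | empty => simp
  | insert p0 S hp0 ih =>
    have ih' := ih (fun p hp => hS p (Finset.mem_insert_of_mem hp))
      (fun p hp => hWS p (Finset.mem_insert_of_mem hp))
    have hpp0 := hS p0 (Finset.mem_insert_self _ _)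
    have hcop : Nat.Coprime (W₁ * ∏ p ∈ S, p ^ k p) (p0 ^ k p0) := by
      apply Nat.Coprime.pow_right
      rw [Nat.coprime_comm, Nat.Prime.coprime_iff_not_dvd hpp0]
      intro h
      rcases (Nat.Prime.dvd_mul hpp0).1 h with h | h
      · exact hWS p0 (Finset.mem_insert_self _ _) h
      · obtain ⟨q, hq, hqd⟩ := (Prime.dvd_finsetProd_iff hpp0.prime _).1 h
        have h2 := hpp0.dvd_of_dvd_pow hqd
        have h3 := (Nat.prime_dvd_prime_iff_eq hpp0
          (hS q (Finset.mem_insert_of_mem hq))).1 h2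
        exact hp0 (h3 ▸ hq)
    have hpos : ∀ p ∈ insert p0 S, 1 ≤ p ^ k p := fun p hp =>
      Nat.one_le_pow _ _ (hS p hp).pos
    have hpos2 : 1 ≤ ∏ p ∈ S, p ^ k p :=
      Nat.one_le_iff_ne_zero.2 (Finset.prod_ne_zero_iff.2 (fun p hp =>
        Nat.one_le_iff_ne_zero.1 (hpos p (Finset.mem_insert_of_mem hp))))
    have e1 : W₁ * ∏ p ∈ insert p0 S, p ^ k p = (W₁ * ∏ p ∈ S, p ^ k p) * p0 ^ k p0 := by
      rw [Finset.prod_insert hp0]
      ring
    rw [e1, hCRL r F L c _ _ (Nat.one_le_iff_ne_zero.2 (Nat.mul_ne_zero (by omega)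
      (by omega))) (hpos p0 (Finset.mem_insert_self _ _)) hcop, ih', Finset.prod_insert hp0]
    ring

/-- **ULB.** -/
theorem pf_ULB (hHCL : T_HCL) (hCRL : T_CRL) (hUW1 : T_UW1) : T_ULB := by
  classical
  intro r F t w₀ hr
  set P : Finset ℕ := (Finset.range (w₀ + 1)).filter Nat.Prime with hP
  have hPp : ∀ p ∈ P, p.Prime := fun p hp => (Finset.mem_filter.1 hp).2
  have hPw : ∀ p ∈ P, p ≤ w₀ := fun p hp => by
    have := Finset.mem_range.1 (Finset.mem_filter.1 hp).1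
    omega
  have hPm : ∀ p : ℕ, p.Prime → p ≤ w₀ → p ∈ P := fun p hp h =>
    Finset.mem_filter.2 ⟨Finset.mem_range.2 (by omega), hp⟩
  obtain ⟨r', rfl⟩ : ∃ r', r = r' + 2 := ⟨r - 2, by omega⟩
  rw [Nat.add_sub_cancel]
  set Cst : ℕ := ∏ p ∈ P, p ^ (2 * t * r') with hCst
  have hCst0 : 0 < Cst := Finset.prod_pos (fun p hp => pow_pos (hPp p hp).pos _)
  have hCstR : (0 : ℝ) < Cst := by exact_mod_cast hCst0
  set Fc : ℕ := w₀.factorial ^ t with hFc
  have hFc0 : 0 < Fc := pow_pos w₀.factorial_pos _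
  have hFcR : (0 : ℝ) < Fc := by exact_mod_cast hFc0
  refine ⟨1 / (2 * Cst * (Fc : ℝ) ^ 2), by positivity, ?_⟩
  intro W₀ W₁ _ _ L hW0 hW0t hW1 hRL hA
  have hW00 : W₀ ≠ 0 := NeZero.ne W₀
  have hW10 : W₁ ≠ 0 := NeZero.ne W₁
  have hex : ∀ p ∈ P, ∃ j, j ≤ t ∧ RLj F t p j L := fun p hp => hRL p (hPp p hp) (hPw p hp)
  choose! j hjt hj using hex
  set m : ℕ := ∏ p ∈ P, p ^ j p with hm
  have hm0 : 0 < m := Finset.prod_pos (fun p hp => pow_pos (hPp p hp).pos _)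
  have hmle : m ≤ Fc := by
    have h1 : m ≤ (∏ p ∈ P, p) ^ t := by
      rw [← Finset.prod_pow]
      exact Finset.prod_le_prod' (fun p hp => Nat.pow_le_pow_right (hPp p hp).pos (hjt p hp))
    have h2 : ∏ p ∈ P, p ≤ w₀.factorial := by
      rw [← Finset.prod_Ico_id_eq_factorial]
      refine Finset.prod_le_prod_of_subset_of_one_le' ?_ ?_
      · intro p hp
        rw [Finset.mem_Ico]
        have := hPw p hp
        exact ⟨(hPp p hp).one_lt.le, by omega⟩
      · intro p hp _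
        exact (Finset.mem_Ico.1 hp).1
    exact h1.trans (Nat.pow_le_pow_left h2 t)
  refine ⟨m, hm0, hmle, ?_⟩
  have hmP : ∀ p : ℕ, p.Prime → p ∣ m → p ∈ P := by
    intro p hp h
    obtain ⟨q, hq, hqd⟩ := (Prime.dvd_finsetProd_iff hp.prime _).1 h
    have h2 := hp.dvd_of_dvd_pow hqd
    have h3 := (Nat.prime_dvd_prime_iff_eq hp (hPp q hq)).1 h2
    exact h3 ▸ hq
  set R0 : ℕ := m * W₀ with hR0
  have hR00 : R0 ≠ 0 := Nat.mul_ne_zero hm0.ne' hW00
  have hR0P : ∀ p : ℕ, p.Prime → p ∣ R0 → p ∈ P := by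
    intro p hp h
    rcases (Nat.Prime.dvd_mul hp).1 h with h | h
    · exact hmP p hp h
    · exact hPm p hp (hW0 p hp h)
  have hRm : m * (W₀ * W₁) = W₁ * R0 := by
    rw [hR0]
    ring
  have hWS : ∀ p ∈ P, ¬ p ∣ W₁ := by
    intro p hp h
    have h3 := hPw p hp
    have h4 := hW1 p (hPp p hp) h
    omega
  have hcop : Nat.Coprime m W₁ := by
    rw [Nat.coprime_iff_gcd_eq_one]
    by_contra hne
    obtain ⟨p, hp, hpd⟩ := Nat.exists_prime_and_dvd hne
    exact hWS p (hmP p hp (hpd.trans (Nat.gcd_dvd_left _ _))) (hpd.trans (Nat.gcd_dvd_right _ _))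
  have hprod := ulb_prod F L hCRL m W₁ (Nat.one_le_iff_ne_zero.2 hW10) P
    (fun p => R0.factorization p) hPp hWS
  rw [prod_fac R0 hR00 P hR0P, ← hRm, hUW1 (r' + 2) F L m W₁ hcop] at hprod
  -- one prime
  have hone : ∀ p ∈ P, p ^ (R0.factorization p * r') ≤
      (UL F m (p ^ R0.factorization p) L).card * p ^ (2 * t * r') := by
    intro p hp
    have hpp := hPp p hp
    have h2 : m = p ^ j p * ∏ q ∈ P.erase p, q ^ j q := (Finset.mul_prod_erase P _ hp).symm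
    have hnd : ¬ p ∣ ∏ q ∈ P.erase p, q ^ j q := by
      intro h
      obtain ⟨q, hq, hqd⟩ := (Prime.dvd_finsetProd_iff hpp.prime _).1 h
      have h4 := hpp.dvd_of_dvd_pow hqd
      have h5 := (Nat.prime_dvd_prime_iff_eq hpp (hPp q (Finset.mem_of_mem_erase hq))).1 h4
      exact (Finset.ne_of_mem_erase hq) h5.symm
    have hW : 2 * t ≤ R0.factorization p :=
      (hpp.pow_dvd_iff_le_factorization hR00).1
        ((hW0t p hpp (hPw p hp)).trans (Dvd.intro_left _ rfl))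
    have h3 := hHCL (r' + 2) F L p t (j p) (R0.factorization p) _ hpp hnd hW (hj p hp)
    rw [← h2, Nat.add_sub_cancel] at h3
    refine le_trans ?_ (Nat.mul_le_mul_right _ h3)
    rw [← pow_add, ← Nat.add_mul, Nat.sub_add_cancel hW]
  have hall : R0 ^ r' ≤ (∏ p ∈ P, (UL F m (p ^ R0.factorization p) L).card) * Cst := by
    have e1 : R0 ^ r' = ∏ p ∈ P, p ^ (R0.factorization p * r') := by
      conv_lhs => rw [← prod_fac R0 hR00 P hR0P]
      rw [← Finset.prod_pow]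
      refine Finset.prod_congr rfl (fun p _ => ?_)
      rw [← pow_mul]
    rw [e1, hCst, ← Finset.prod_mul_distrib]
    exact Finset.prod_le_prod' hone
  -- the end
  have hfin : (W₁ * R0) ^ r' ≤ 2 * Cst * (UL F m (m * (W₀ * W₁)) L).card := by
    rw [hprod]
    calc (W₁ * R0) ^ r' = W₁ ^ r' * R0 ^ r' := by rw [mul_pow]
      _ ≤ (2 * aL F W₁ (cL (ZMod W₁) L)) *
          ((∏ p ∈ P, (UL F m (p ^ R0.factorization p) L).card) * Cst) :=
          Nat.mul_le_mul hA hall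
      _ = _ := by ring
  rw [← hRm] at hfin
  have hfinR : ((m * (W₀ * W₁) : ℕ) : ℝ) ^ r' ≤
      2 * Cst * ((UL F m (m * (W₀ * W₁)) L).card : ℝ) := by
    exact_mod_cast hfin
  have hWW : (0 : ℝ) < ((W₀ * W₁ : ℕ) : ℝ) := by
    exact_mod_cast Nat.mul_pos (Nat.pos_of_ne_zero hW00) (Nat.pos_of_ne_zero hW10)
  have hmR : (m : ℝ) ≤ Fc := by exact_mod_cast hmle
  have hmR0 : (0 : ℝ) < m := by exact_mod_cast hm0
  have hm2 : (m : ℝ) ^ 2 ≤ (Fc : ℝ) ^ 2 := pow_le_pow_left₀ hmR0.le hmR 2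
  have e2 : ((m * (W₀ * W₁) : ℕ) : ℝ) = m * ((W₀ * W₁ : ℕ) : ℝ) := by push_cast; ring
  rw [div_le_iff₀ (by positivity), div_mul_eq_mul_div, one_mul, div_le_iff₀ (by positivity),
    pow_add]
  have hU : (0 : ℝ) ≤ ((UL F m (m * (W₀ * W₁)) L).card : ℝ) := Nat.cast_nonneg _
  generalize ((UL F m (m * (W₀ * W₁)) L).card : ℝ) = U at hfinR hU ⊢
  rw [e2] at hfinR ⊢
  generalize ((W₀ * W₁ : ℕ) : ℝ) = V at hfinR hWW ⊢
  calc ((m : ℝ) * V) ^ r' * ((m : ℝ) * V) ^ 2 ≤ 2 * Cst * U * ((m : ℝ) * V) ^ 2 :=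
        mul_le_mul_of_nonneg_right hfinR (by positivity)
    _ = 2 * Cst * U * V ^ 2 * (m : ℝ) ^ 2 := by ring
    _ ≤ 2 * Cst * U * V ^ 2 * (Fc : ℝ) ^ 2 :=
        mul_le_mul_of_nonneg_left hm2 (by positivity)
    _ = _ := by ring

end Pool.Agent.H75.HFS
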